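import Mathlib

set_option autoImplicit false

namespace Pool.Agent.Results.MP_5bfb0a_al.AlmostCommutes

open Filter Topology
open scoped Pointwise

universe u

section defs
variable {Γ : Type u} [Group Γ]

/-- `Λ` is commensurated in `Γ`: for every `g` the index of `Λ ∩ gΛg⁻¹` in `Λ` is finite. -/
def Commensurated (Λ : Subgroup Γ) : Prop :=
  ∀ g : Γ, (Λ.map (MulAut.conj g).toMonoidHom).relIndex Λ ≠ 0

/-- `Λ` almost commutes with compacts. -/
def AlmostCommutesWithCompacts [TopologicalSpace Γ] (Λ : Subgroup Γ) : Prop :=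
  ∀ C : Set Γ, IsCompact C → ∃ C' : Set Γ, IsCompact C' ∧
    C * (Λ : Set Γ) ⊆ (Λ : Set Γ) * C' ∧ (Λ : Set Γ) * C ⊆ C' * (Λ : Set Γ)

end defs

variable {Γ : Type u} [Group Γ]

/-- The family `f` of elements of `Λ` gives pairwise different cosets `f i g Λ`. -/
def Dist (Λ : Subgroup Γ) {k : ℕ} (f : Fin k → Λ) (g : Γ) : Prop :=
  ∀ i j, i ≠ j → g⁻¹ * ((f i : Γ)⁻¹ * (f j : Γ)) * g ∉ Λ

/-- At least `k` cosets. -/
def P (Λ : Subgroup Γ) (k : ℕ) (g : Γ) : Prop := ∃ f : Fin k → Λ, Dist Λ f g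

theorem P_zero (Λ : Subgroup Γ) (g : Γ) : P Λ 0 g := ⟨fun i => i.elim0, fun i => i.elim0⟩

theorem exists_not_P {Λ : Subgroup Γ} (h : Commensurated Λ) (g : Γ) : ∃ k, ¬ P Λ k g := by
  have hfi : ((Λ.map (MulAut.conj g).toMonoidHom).subgroupOf Λ).FiniteIndex := ⟨h g⟩
  have hfin : Finite (Λ ⧸ (Λ.map (MulAut.conj g).toMonoidHom).subgroupOf Λ) :=
    Subgroup.finite_quotient_of_finiteIndex
  have := Fintype.ofFinite (Λ ⧸ (Λ.map (MulAut.conj g).toMonoidHom).subgroupOf Λ)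
  refine ⟨Fintype.card (Λ ⧸ (Λ.map (MulAut.conj g).toMonoidHom).subgroupOf Λ) + 1, ?_⟩
  rintro ⟨f, hf⟩
  obtain ⟨i, j, hij, heq⟩ := Fintype.exists_ne_map_eq_of_card_lt
    (fun i => (QuotientGroup.mk (f i) : Λ ⧸ (Λ.map (MulAut.conj g).toMonoidHom).subgroupOf Λ))
    (by rw [Fintype.card_fin]; exact Nat.lt_succ_self _)
  apply hf i j hij
  rw [QuotientGroup.eq, Subgroup.mem_subgroupOf] at heq
  obtain ⟨l, hl, hl2⟩ := heq
  have h2 : (f i : Γ)⁻¹ * (f j : Γ) = g * l * g⁻¹ := by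
    rw [show (f i : Γ)⁻¹ * (f j : Γ) = (((f i)⁻¹ * f j : Λ) : Γ) from rfl, ← hl2]
    rfl
  rw [h2]
  have h3 : g⁻¹ * (g * l * g⁻¹) * g = l := by group
  rw [h3]
  exact hl

/-- A maximal family covers the orbit. -/
theorem cover {Λ : Subgroup Γ} {m : ℕ} {g : Γ} (f : Fin m → Λ) (hf : Dist Λ f g)
    (hP : ¬ P Λ (m + 1) g) (l : Γ) (hl : l ∈ Λ) :
    ∃ i : Fin m, ∃ l' ∈ Λ, l * g = (f i : Γ) * g * l' := by
  by_contra hcon
  push Not at hcon
  apply hP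
  refine ⟨Fin.cons ⟨l, hl⟩ f, ?_⟩
  intro i j hij
  rcases Fin.eq_zero_or_eq_succ i with rfl | ⟨i, rfl⟩
  · rcases Fin.eq_zero_or_eq_succ j with rfl | ⟨j, rfl⟩
    · exact absurd rfl hij
    · simp only [Fin.cons_zero, Fin.cons_succ]
      intro hmem
      refine hcon j _ (Λ.inv_mem hmem) ?_
      group
  · rcases Fin.eq_zero_or_eq_succ j with rfl | ⟨j, rfl⟩
    · simp only [Fin.cons_zero, Fin.cons_succ]
      intro hmem
      refine hcon i _ hmem ?_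
      group
    · simp only [Fin.cons_succ]
      exact hf i j (fun h => hij (by rw [h]))

theorem exists_finite {Λ : Subgroup Γ} (h : Commensurated Λ) (t : Γ) :
    ∃ F : Set Γ, F.Finite ∧ ∀ l ∈ Λ, ∃ a ∈ F, ∃ l' ∈ Λ, l * t = a * t * l' := by
  classical
  set k := Nat.find (exists_not_P h t) with hk
  have hk1 : ¬ P Λ k t := Nat.find_spec (exists_not_P h t)
  have hk0 : k ≠ 0 := fun h0 => hk1 (h0 ▸ P_zero Λ t)
  obtain ⟨m, hm⟩ := Nat.exists_eq_succ_of_ne_zero hk0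
  have hm1 : P Λ m t := by
    by_contra hcon
    have := Nat.find_min' (exists_not_P h t) hcon
    omega
  obtain ⟨f, hf⟩ := hm1
  refine ⟨Set.range (fun i => (f i : Γ)), Set.finite_range _, fun l hl => ?_⟩
  have hk2 : ¬ P Λ (m + 1) t := by
    rw [hm] at hk1
    exact hk1
  obtain ⟨i, l', hl', he⟩ := cover f hf hk2 l hl
  exact ⟨_, ⟨i, rfl⟩, l', hl', he⟩

variable [TopologicalSpace Γ] [IsTopologicalGroup Γ]

theorem isOpen_Dist {Λ : Subgroup Γ} (hcl : IsClosed (Λ : Set Γ)) {k : ℕ} (f : Fin k → Λ) :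
    IsOpen {g : Γ | Dist Λ f g} := by
  have : {g : Γ | Dist Λ f g} = ⋂ i : Fin k, ⋂ j : Fin k, ⋂ _ : i ≠ j,
      {g : Γ | g⁻¹ * ((f i : Γ)⁻¹ * (f j : Γ)) * g ∈ (Λ : Set Γ)ᶜ} := by
    ext g
    simp only [Set.mem_iInter]
    exact Iff.rfl
  rw [this]
  refine isOpen_iInter_of_finite fun i => isOpen_iInter_of_finite fun j =>
    isOpen_iInter_of_finite fun _ => ?_
  exact hcl.isOpen_compl.preimage (by fun_prop)

theorem isOpen_P {Λ : Subgroup Γ} (hcl : IsClosed (Λ : Set Γ)) (k : ℕ) :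
    IsOpen {g : Γ | P Λ k g} := by
  have : {g : Γ | P Λ k g} = ⋃ f : Fin k → Λ, {g : Γ | Dist Λ f g} := by
    ext g
    simp only [Set.mem_iUnion]
    exact Iff.rfl
  rw [this]
  exact isOpen_iUnion fun f => isOpen_Dist hcl f

/-- The crucial open set. -/
theorem exists_open [LocallyCompactSpace Γ] [T2Space Γ] {Λ : Subgroup Γ}
    (hcl : IsClosed (Λ : Set Γ)) (h : Commensurated Λ) :
    ∃ (U : Set Γ) (g₀ : Γ) (F : Set Γ), IsOpen U ∧ g₀ ∈ U ∧ F.Finite ∧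
      ∀ g ∈ U, ∀ l ∈ Λ, ∃ a ∈ F, ∃ l' ∈ Λ, l * g = a * g * l' := by
  classical
  have hex : ∃ k : ℕ, ∃ V : Set Γ, IsOpen V ∧ V.Nonempty ∧ ∀ g ∈ V, ¬ P Λ k g := by
    obtain ⟨k, hk⟩ := nonempty_interior_of_iUnion_of_closed
      (f := fun k : ℕ => {g : Γ | ¬ P Λ k g})
      (fun k => (isOpen_P hcl k).isClosed_compl) (by
        rw [Set.eq_univ_iff_forall]
        intro g
        rw [Set.mem_iUnion]
        exact exists_not_P h g)
    exact ⟨k, _, isOpen_interior, hk, fun g hg => interior_subset hg⟩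
  set k := Nat.find hex with hk
  obtain ⟨V, hVo, hVn, hV⟩ := Nat.find_spec hex
  have hk0 : k ≠ 0 := by
    intro h0
    obtain ⟨g, hg⟩ := hVn
    have := hV g hg
    rw [← hk, h0] at this
    exact this (P_zero Λ g)
  obtain ⟨m, hm⟩ := Nat.exists_eq_succ_of_ne_zero hk0
  have hex2 : ∃ g₀ ∈ V, P Λ m g₀ := by
    by_contra hcon
    push Not at hcon
    have := Nat.find_min' hex (m := m) ⟨V, hVo, hVn, hcon⟩
    omega
  obtain ⟨g₀, hg₀, f, hf⟩ := hex2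
  refine ⟨V ∩ {g | Dist Λ f g}, g₀, Set.range (fun i => (f i : Γ)), hVo.inter (isOpen_Dist hcl f),
    ⟨hg₀, hf⟩, Set.finite_range _, fun g hg l hl => ?_⟩
  have h1 : ¬ P Λ (m + 1) g := by
    have := hV g hg.1
    rw [← hk, hm] at this
    exact this
  obtain ⟨i, l', hl', he⟩ := cover f hg.2 h1 l hl
  exact ⟨_, ⟨i, rfl⟩, l', hl', he⟩

/-- One of the two inclusions. -/
theorem half [LocallyCompactSpace Γ] [T2Space Γ] {Λ : Subgroup Γ}
    (hcl : IsClosed (Λ : Set Γ)) (h : Commensurated Λ) (C : Set Γ) (hC : IsCompact C) :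
    ∃ C' : Set Γ, IsCompact C' ∧ (Λ : Set Γ) * C ⊆ C' * (Λ : Set Γ) := by
  obtain ⟨U, g₀, F, hUo, hg₀, hF, hU⟩ := exists_open hcl h
  obtain ⟨K, hK, hgK, hKU⟩ := exists_compact_subset hUo hg₀
  refine hC.induction_on (p := fun C => ∃ C' : Set Γ, IsCompact C' ∧
    (Λ : Set Γ) * C ⊆ C' * (Λ : Set Γ)) ?_ ?_ ?_ ?_
  · exact ⟨∅, isCompact_empty, by simp⟩
  · rintro S T hST ⟨C', hC', hsub⟩
    exact ⟨C', hC', (Set.mul_subset_mul_left hST).trans hsub⟩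
  · rintro S T ⟨C', hC', hsub⟩ ⟨C'', hC'', hsub'⟩
    refine ⟨C' ∪ C'', hC'.union hC'', ?_⟩
    rw [Set.mul_union, Set.union_mul]
    exact Set.union_subset_union hsub hsub'
  · intro c _
    -- translate the compact neighbourhood `K` of `g₀`
    obtain ⟨Ft, hFt, hcov⟩ := exists_finite h (g₀⁻¹ * c)
    refine ⟨(fun x => x * (g₀⁻¹ * c)) '' K, mem_nhdsWithin_of_mem_nhds ?_,
      F * K * Ft * {g₀⁻¹ * c}, ((hF.isCompact.mul hK).mul hFt.isCompact).mul isCompact_singleton, ?_⟩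
    · have h1 : (fun x => x * (g₀⁻¹ * c)) '' K = (Homeomorph.mulRight (g₀⁻¹ * c)) '' K := rfl
      rw [h1]
      have h2 : K ∈ 𝓝 g₀ := mem_interior_iff_mem_nhds.1 hgK
      have h4 := (Homeomorph.mulRight (g₀⁻¹ * c)).isOpenMap.image_mem_nhds h2
      have h5 : (Homeomorph.mulRight (g₀⁻¹ * c)) g₀ = c := by
        show g₀ * (g₀⁻¹ * c) = c
        group
      rwa [h5] at h4
    · rintro _ ⟨l, hl, _, ⟨u, hu, rfl⟩, rfl⟩
      obtain ⟨a, ha, l', hl', he⟩ := hU u (hKU hu) l hl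
      obtain ⟨b, hb, l'', hl'', he'⟩ := hcov l' hl'
      refine ⟨a * u * b * (g₀⁻¹ * c), ?_, l'', hl'', ?_⟩
      · exact Set.mul_mem_mul (Set.mul_mem_mul (Set.mul_mem_mul ha hu) hb) rfl
      · show a * u * b * (g₀⁻¹ * c) * l'' = l * (u * (g₀⁻¹ * c))
        rw [← mul_assoc l u, he, mul_assoc (a * u) l', he']
        group

/-- In a locally compact Hausdorff group, every closed commensurated subgroup almost commutes with
compacts. -/
theorem result (Γ : Type u) [Group Γ] [TopologicalSpace Γ] [IsTopologicalGroup Γ]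
    [LocallyCompactSpace Γ] [T2Space Γ] (Λ : Subgroup Γ) (hcl : IsClosed (Λ : Set Γ))
    (h : Commensurated Λ) : AlmostCommutesWithCompacts Λ := by
  intro C hC
  obtain ⟨C₁, hC₁, h1⟩ := half hcl h C hC
  obtain ⟨C₂, hC₂, h2⟩ := half hcl h C⁻¹ hC.inv
  refine ⟨C₁ ∪ C₂⁻¹, hC₁.union hC₂.inv, ?_, ?_⟩
  · have h3 : ((Λ : Set Γ) * C⁻¹)⁻¹ ⊆ (C₂ * (Λ : Set Γ))⁻¹ := Set.inv_subset_inv.2 h2
    rw [mul_inv_rev, mul_inv_rev, inv_inv, inv_coe_set] at h3
    exact h3.trans (Set.mul_subset_mul_left Set.subset_union_right)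
  · exact h1.trans (Set.mul_subset_mul_right Set.subset_union_left)

end Pool.Agent.Results.MP_5bfb0a_al.AlmostCommutes
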